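import Mathlib
import Pool.Agent.H.MP_104b1e_lc.A

namespace Pool.Agent.Results.MP_104b1e_lc.Subexp

open Pool.Agent.H.MP_104b1e_lc

theorem result : ∀ n : ℕ, 5 ≤ n → ∀ f : (Fin n → Bool) → (Fin n → Bool) → Bool,
    ZAMle f (Real.exp (120 * Real.sqrt (n * Real.log n))) := by
  intro n hn f
  have h1 : 17 ≤ 2 ^ n := by
    calc 17 ≤ 2 ^ 5 := by norm_num
      _ ≤ _ := Nat.pow_le_pow_right (by norm_num) hn
  refine (main f (2 ^ n) h1 (by simp)).mono ?_
  apply Real.exp_le_exp.2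
  have l2 : (1 : ℝ) / 2 ≤ Real.log 2 := by have := Real.log_two_gt_d9; linarith
  have l3 : Real.log 2 ≤ 1 := by have := Real.log_two_lt_d9; linarith
  have hn' : (5 : ℝ) ≤ n := by exact_mod_cast hn
  have e : Real.log ((2 ^ n : ℕ) : ℝ) = n * Real.log 2 := by
    push_cast
    rw [Real.log_pow]
  rw [e]
  have h2 : (n : ℝ) * Real.log 2 ≤ n := by nlinarith
  have h3 : (1 : ℝ) ≤ n * Real.log 2 := by nlinarith
  have h4 : Real.log (n * Real.log 2) ≤ Real.log n := Real.log_le_log (by linarith) h2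
  have h5 : 0 ≤ Real.log (n * Real.log 2) := Real.log_nonneg h3
  gcongr

end Pool.Agent.Results.MP_104b1e_lc.Subexp
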